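import Pool.Agent.Lib.MP_78f804_pr.Tail
import Pool.Agent.Lib.MP_78f804_pr.Model

set_option autoImplicit false

open MeasureTheory ProbabilityTheory Filter Set
open scoped Topology
open Pool.Agent.Lib.MP_78f804_pr

universe u

namespace Pool.Agent.Results.MP_78f804_pr.Disproof

/-- The random lacunary set exists, and for every realisation of it on a probability space:
almost surely `√(log n) * |Σ(A) ∩ [n]| / n` has no limit in `(0, ∞)`; moreover the density
`|Σ(A) ∩ [n]| / n` is typically as small as `exp (-η √(log n))`. -/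
theorem result :
    (∃ (Ω : Type) (_ : MeasurableSpace Ω) (P : Measure Ω) (A : Ω → Set ℕ),
      IsRandomLacunary P A) ∧
    ∀ (Ω : Type u) [MeasurableSpace Ω] (P : Measure Ω) (A : Ω → Set ℕ),
      IsRandomLacunary P A →
      (∀ᵐ ω ∂P, ∀ C : ℝ, 0 < C →
        ¬ Tendsto (fun n : ℕ => √(Real.log n) *
            ((subsetSums (A ω) ∩ Set.Icc 1 n).ncard : ℝ) / n) atTop (𝓝 C)) ∧
      (∀ δ : ℝ, 0 < δ → ∃ η : ℝ, 0 < η ∧ ∀ᶠ n : ℕ in atTop,
        P.real {ω | Real.exp (-(η * √(Real.log n))) ≤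
          ((subsetSums (A ω) ∩ Set.Icc 1 n).ncard : ℝ) / n} ≤ δ) := by
  refine ⟨⟨ℕ → Bool, inferInstance, _, _, model_isRandomLacunary⟩, ?_⟩
  intro Ω _ P A h
  exact ⟨ae_not_tendsto h, fun δ hδ => typical h δ hδ⟩

end Pool.Agent.Results.MP_78f804_pr.Disproof
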